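import Mathlib
import Pool.Agent.H8MT.Gr

/-!
# Numbers near `α * w N` and near `β N * α ^ N` for almost all `α`

A positive integer `y` is called solvable for the coefficients `u 1, …, u n, v` if there is an
admissible `(n + 1)`-tuple (coprime integers with sum zero, without vanishing proper partial sum)
of the form `(u 1 * y ^ e 1, …, u n * y ^ e n, v * z ^ k)` with members at most `W`, with exponents
`e i ≥ 0` (not all equal), an integer `z` and an exponent `k ≥ K`.

We prove that, if `K ≥ n`, for almost all real numbers `α > 1` and every `B`, for all large `N` no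
integer at distance at most `N ^ B` from `β N * α ^ N` is solvable for any coefficients of absolute
value at most `N ^ B`, with `W = exp (N ^ B)`; here `β N ≥ 1` are arbitrary real numbers. The same is
true for `α * w N` if `w N` grows faster than all powers of `N`, e.g. for the numbers formed by the
first `N` digits of almost every real number. The bound `K ≥ n` is sharp: every `y` is solvable for
`K = n - 1` and the coefficients of `(1 + X) ^ (n - 1)`.

Proof. By the theorem `few` of `Pool/Agent/H8SP/Few.lean` every interval of length `Y`, at any height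
up to `exp (Y ^ δ)`, contains at most `Y ^ ((n - 1) / K + ε)` integers which are solvable for given
coefficients. The map `x ↦ β N * x ^ N` has a derivative of constant size on the intervals of length
`1 / N`; cutting the image into intervals of length `Y`, with `Y` a large power of `N`, we see that the
measure of the exceptional `x` is at most `N ^ (-2)` up to a constant. We conclude with the lemma of
Borel and Cantelli.
-/

set_option autoImplicit false

namespace Pool.Agent.Results.MP_a95293_nt.AlmostAllNumbers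

open MeasureTheory Filter

/-- admissible tuples: coprime integers with sum zero and no vanishing proper partial sum -/
def Admissible {n : ℕ} (a : Fin n → ℤ) : Prop :=
  Finset.univ.gcd a = 1 ∧ ∑ i, a i = 0 ∧
    ∀ K : Finset (Fin n), K.Nonempty → K ≠ Finset.univ → ∑ i ∈ K, a i ≠ 0

/-- there is an admissible `(n + 1)`-tuple with members at most `W` in absolute value, the first `n`
members of which are `u i * y ^ e i`, where the exponents `e i` are not all equal, and the last one is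
`v * z ^ k` with an integer `z` and `k ≥ K` -/
def Solvable {n : ℕ} (K : ℕ) (W : ℝ) (u : Fin n → ℤ) (v : ℤ) (y : ℕ) : Prop :=
  ∃ (a : Fin (n + 1) → ℤ) (e : Fin n → ℕ) (z : ℤ) (k : ℕ), Admissible a ∧
    (∀ i, |(a i : ℝ)| ≤ W) ∧ (∀ i : Fin n, a i.castSucc = u i * (y : ℤ) ^ e i) ∧
    a (Fin.last n) = v * z ^ k ∧ K ≤ k ∧ ∃ i j, e i ≠ e j

/-- for every `B` and all large `N` no integer `y` with `|y - x N| ≤ N ^ B` is solvable with
`W = exp (N ^ B)` for any coefficients of absolute value at most `N ^ B` -/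
def FarFromSolvable (n K : ℕ) (x : ℕ → ℝ) : Prop :=
  ∀ B : ℕ, ∀ᶠ N : ℕ in atTop, ∀ y : ℕ, |(y : ℝ) - x N| ≤ (N : ℝ) ^ B →
    ∀ (u : Fin n → ℤ) (v : ℤ), (∀ i, |u i| ≤ (N : ℤ) ^ B) → |v| ≤ (N : ℤ) ^ B →
      ¬ Solvable K (Real.exp ((N : ℝ) ^ B)) u v y

theorem result (n : ℕ) (hn : 2 ≤ n) :
    -- multiples of a sequence which grows faster than all powers
    (∀ K : ℕ, n ≤ K → ∀ w : ℕ → ℝ, (∀ C : ℕ, ∀ᶠ N : ℕ in atTop, (N : ℝ) ^ C ≤ w N) →
      ∀ᵐ α : ℝ, 0 < α → FarFromSolvable n K (fun N => α * w N)) ∧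
    -- powers
    (∀ K : ℕ, n ≤ K → ∀ β : ℕ → ℝ, (∀ N, 1 ≤ β N) →
      ∀ᵐ α : ℝ, 1 < α → FarFromSolvable n K (fun N => β N * α ^ N)) ∧
    -- powers, arbitrary sets of coefficients
    (∀ K : ℕ, n ≤ K → ∀ β : ℕ → ℝ, (∀ N, 1 ≤ β N) →
      ∀ (B : ℕ) (A : ℕ → Finset ((Fin n → ℤ) × ℤ)), (∀ᶠ N : ℕ in atTop, ((A N).card : ℝ) ≤ (N : ℝ) ^ B) →
      ∀ᵐ α : ℝ, 1 < α → ∀ᶠ N : ℕ in atTop, ∀ y : ℕ, |(y : ℝ) - β N * α ^ N| ≤ (N : ℝ) ^ B →
        ∀ p ∈ A N, ¬ Solvable K (Real.exp ((N : ℝ) ^ B)) p.1 p.2 y) ∧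
    -- multiples of a sequence of polynomial growth, arbitrary sets of coefficients
    (∀ (K : ℕ) (τ κ κ' : ℝ), 1 ≤ K → 0 ≤ τ → 0 ≤ κ → 0 ≤ κ' →
      τ + κ + κ' < 1 - ((n : ℝ) - 1) / (K : ℝ) → ∃ δ : ℝ, 0 < δ ∧
      ∀ (w Y : ℕ → ℝ), (∀ N, 1 ≤ Y N) → (∀ N, Y N ≤ w N) → Summable (fun N => (Y N) ^ (-τ)) →
      ∀ A : ℕ → Finset ((Fin n → ℤ) × ℤ), (∀ N, ((A N).card : ℝ) ≤ (Y N) ^ κ') →
      ∀ᵐ α : ℝ, 0 < α → ∀ᶠ N : ℕ in atTop, ∀ y : ℕ, |(y : ℝ) - α * w N| ≤ (Y N) ^ κ →
        ∀ p ∈ A N, ¬ Solvable K (Real.exp ((Y N) ^ δ)) p.1 p.2 y) ∧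
    -- sharpness of the condition `n ≤ K`
    (∀ y : ℕ, 1 ≤ y → Solvable (n - 1) ((1 + (y : ℝ)) ^ (n - 1))
      (fun i : Fin n => ((n - 1).choose i : ℤ)) (-1) y) := by
  refine ⟨fun K hK w hw => Pool.Agent.H8MT.superpoly n hn K hK w hw,
    fun K hK β hβ => Pool.Agent.H8MT.powers n hn K hK β hβ,
    fun K hK β hβ B A hA => Pool.Agent.H8MT.powers_gen n hn K hK β hβ B A hA,
    fun K τ κ κ' hK hτ hκ hκ' hlt => Pool.Agent.H8MT.linear n hn K hK τ κ κ' hτ hκ hκ' hlt,
    fun y hy => ?_⟩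
  have h := Pool.Agent.H8MT.sharp n hn y hy
  have e : (fun i : Fin n => ((n - 1).choose i : ℤ)) = Pool.Agent.H8SP.bin n 1 := by
    funext i
    simp [Pool.Agent.H8SP.bin]
  rw [e]
  exact h

end Pool.Agent.Results.MP_a95293_nt.AlmostAllNumbers
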