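import Mathlib
import Pool.Agent.H8SP.Few
import Pool.Agent.H8SP.Shp

/-!
# The n-term abc equation with one base, arbitrary coefficients and an arbitrary power: a sharp threshold

We consider the admissible `(n + 1)`-tuples (coprime integers with sum zero, without vanishing proper
partial sum) of the form `(u 1 * y ^ e 1, …, u n * y ^ e n, v * z ^ k)`, `n ≥ 2`, where the coefficients
`u i`, `v` are given, and the base `y ≥ 1`, the exponents `e i ≥ 0` (not all equal), the integer `z` and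
the exponent `k ≥ K` are free. For every `ε > 0` there is `δ > 0` such that for all large `Y`, all `K ≥ 1`
and all intervals `(M, M + Y]` (situated anywhere):

* for ALL coefficients there is such a tuple with members at most `exp (Y ^ δ)` for at most
  `Y ^ ((n - 1) / K + ε)` of the integers `y` of the interval;
* for EVERY set `A` of at most `Y ^ (1 - (n - 1) / K - ε)` vectors of coefficients, all but
  `Y ^ (1 - ε / 2)` of the integers `y` of the interval have no such tuple with coefficients in `A`.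

The exponents `(n - 1) / K` and `1 - (n - 1) / K` cannot be improved if `n - 1` divides `K`: for the
coefficients of `(1 + X) ^ (n - 1)` there are at least `Y ^ ((n - 1) / K) / 2` such `y ≤ Y`, and every prime
`y ≥ 3` has such a tuple with the coefficients of `(s + X) ^ (n - 1)` for some `s` at most
`r 2 ^ r y ^ (1 - (n - 1) / K)`, `r = K / (n - 1)`.

Proof. A polynomial with `n` terms and nonzero constant term has no factor of multiplicity `n`, over
`ℚ` and modulo all primes which are larger than the degree and do not divide the constant term. Let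
`F = ∑ u i X ^ e i`, and let `q` be a prime of size `Y ^ ((n - 1) / k + ε)` not dividing `k v F(0)`. If
`q` divides `z` then `q ^ k` divides `F (y)`, and among `n` such integers `y` which are congruent modulo
`q` two are congruent modulo `q ^ ⌈k / (n - 1)⌉` (Lagrange interpolation). The other points are
treated with the determinant method of Bombieri and Pila, with auxiliary polynomials of degree
less than `⌈k / (n - 1)⌉` in `z` and of large degree in `y`; these do not vanish on a component of the curve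
`v z ^ k + F (y) = 0` by the theorem on the multiplicities of the factors of `F`.
-/

set_option autoImplicit false

namespace Pool.Agent.Results.MP_a95293_nt.SharpThreshold

/-- admissible tuples: coprime integers with sum zero and no vanishing proper partial sum -/
def Admissible {n : ℕ} (a : Fin n → ℤ) : Prop :=
  Finset.univ.gcd a = 1 ∧ ∑ i, a i = 0 ∧
    ∀ K : Finset (Fin n), K.Nonempty → K ≠ Finset.univ → ∑ i ∈ K, a i ≠ 0

/-- there is an admissible `(n + 1)`-tuple with members at most `W` in absolute value, the first `n`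
members of which are `u i * y ^ e i`, where the exponents `e i` are not all equal, and the last one is
`v * z ^ k` with an integer `z` and `k ≥ K` -/
def Solvable {n : ℕ} (K : ℕ) (W : ℝ) (u : Fin n → ℤ) (v : ℤ) (y : ℕ) : Prop :=
  ∃ (a : Fin (n + 1) → ℤ) (e : Fin n → ℕ) (z : ℤ) (k : ℕ), Admissible a ∧
    (∀ i, |(a i : ℝ)| ≤ W) ∧ (∀ i : Fin n, a i.castSucc = u i * (y : ℤ) ^ e i) ∧
    a (Fin.last n) = v * z ^ k ∧ K ≤ k ∧ ∃ i j, e i ≠ e j

/-- the coefficients of the polynomial `(s + X) ^ (n - 1)` -/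
def binomial (n s : ℕ) (i : Fin n) : ℤ := ((n - 1).choose i : ℤ) * (s : ℤ) ^ (n - 1 - (i : ℕ))

theorem result (n : ℕ) (hn : 2 ≤ n) :
    (∀ ε : ℝ, 0 < ε → ∃ δ : ℝ, 0 < δ ∧ ∃ Y₀ : ℕ, ∀ Y : ℕ, Y₀ ≤ Y → ∀ K : ℕ, 1 ≤ K → ∀ M : ℕ,
      (∀ (u : Fin n → ℤ) (v : ℤ),
        (({y : ℕ | M < y ∧ y ≤ M + Y ∧
            Solvable K (Real.exp ((Y : ℝ) ^ δ)) u v y}.ncard : ℕ) : ℝ) ≤
          (Y : ℝ) ^ (((n : ℝ) - 1) / (K : ℝ) + ε)) ∧
      (∀ A : Finset ((Fin n → ℤ) × ℤ),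
        (A.card : ℝ) ≤ (Y : ℝ) ^ (1 - ((n : ℝ) - 1) / (K : ℝ) - ε) →
        (({y : ℕ | M < y ∧ y ≤ M + Y ∧ ∃ p ∈ A,
            Solvable K (Real.exp ((Y : ℝ) ^ δ)) p.1 p.2 y}.ncard : ℕ) : ℝ) ≤
          (Y : ℝ) ^ (1 - ε / 2))) ∧
    (∀ r : ℕ, 1 ≤ r → ∀ δ : ℝ, 0 < δ → ∃ Y₀ : ℕ, ∀ Y : ℕ, Y₀ ≤ Y →
      (Y : ℝ) ^ (1 / (r : ℝ)) / 2 ≤
        (({y : ℕ | 0 < y ∧ y ≤ Y ∧
            Solvable ((n - 1) * r) (Real.exp ((Y : ℝ) ^ δ)) (binomial n 1) (-1) y}.ncard : ℕ) : ℝ)) ∧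
    (∀ r : ℕ, 2 ≤ r → ∀ y : ℕ, y.Prime → 3 ≤ y →
      ∃ s : ℕ, 1 ≤ s ∧ (s : ℝ) ≤ r * 2 ^ r * (y : ℝ) ^ (1 - 1 / (r : ℝ)) ∧
        Solvable ((n - 1) * r) (((s : ℝ) + y) ^ (n - 1)) (binomial n s) (-1) y) := by
  classical
  have hcast : ((n - 1 : ℕ) : ℝ) = (n : ℝ) - 1 := by
    rw [Nat.cast_sub (by omega), Nat.cast_one]
  refine ⟨fun ε hε => ?_, fun r hr δ hδ => Pool.Agent.H8SP.many n r hn hr δ hδ,
    fun r hr y hy hy3 => Pool.Agent.H8SP.cover n r y hn hr hy hy3⟩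
  obtain ⟨δ, hδ, N₀, h⟩ := Pool.Agent.H8SP.few n hn (ε / 2) (by positivity)
  rw [hcast] at h
  refine ⟨δ, hδ, max N₀ 1, fun Y hY K hK M => ?_⟩
  have hY1 : (1 : ℝ) ≤ Y := by exact_mod_cast (le_max_right _ _).trans hY
  have hY0 : (0 : ℝ) < Y := by linarith
  have hfin : ∀ P : ℕ → Prop, {y : ℕ | M < y ∧ y ≤ M + Y ∧ P y}.Finite := fun P =>
    (Finset.Ioc M (M + Y)).finite_toSet.subset fun b hb => by
      rw [Finset.coe_Ioc]
      exact ⟨hb.1, hb.2.1⟩
  have hone : ∀ (u : Fin n → ℤ) (v : ℤ), (({y : ℕ | M < y ∧ y ≤ M + Y ∧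
      Solvable K (Real.exp ((Y : ℝ) ^ δ)) u v y}.ncard : ℕ) : ℝ) ≤
      (Y : ℝ) ^ (((n : ℝ) - 1) / (K : ℝ) + ε / 2) := by
    intro u v
    have hf := hfin (Solvable K (Real.exp ((Y : ℝ) ^ δ)) u v)
    rw [Set.ncard_eq_toFinset_card _ hf]
    refine h Y ((le_max_left _ _).trans hY) K hK M u v _ fun b hb => ?_
    rw [Set.Finite.mem_toFinset] at hb
    exact hb
  refine ⟨fun u v => (hone u v).trans (Real.rpow_le_rpow_of_exponent_le hY1 (by linarith)),
    fun A hA => ?_⟩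
  have hsub : {y : ℕ | M < y ∧ y ≤ M + Y ∧ ∃ p ∈ A,
      Solvable K (Real.exp ((Y : ℝ) ^ δ)) p.1 p.2 y} ⊆ ⋃ p ∈ A, {y : ℕ | M < y ∧ y ≤ M + Y ∧
      Solvable K (Real.exp ((Y : ℝ) ^ δ)) p.1 p.2 y} := by
    rintro y ⟨h1, h2, p, hp, h3⟩
    exact Set.mem_iUnion₂.2 ⟨p, hp, h1, h2, h3⟩
  have hunion : ((⋃ p ∈ A, {y : ℕ | M < y ∧ y ≤ M + Y ∧
      Solvable K (Real.exp ((Y : ℝ) ^ δ)) p.1 p.2 y}).ncard) ≤ ∑ p ∈ A, {y : ℕ | M < y ∧ y ≤ M + Y ∧
      Solvable K (Real.exp ((Y : ℝ) ^ δ)) p.1 p.2 y}.ncard :=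
    Finset.set_ncard_biUnion_le _ _
  have hfinU : (⋃ p ∈ A, {y : ℕ | M < y ∧ y ≤ M + Y ∧
      Solvable K (Real.exp ((Y : ℝ) ^ δ)) p.1 p.2 y}).Finite :=
    Set.Finite.biUnion A.finite_toSet fun p _ => hfin _
  calc (({y : ℕ | M < y ∧ y ≤ M + Y ∧ ∃ p ∈ A,
        Solvable K (Real.exp ((Y : ℝ) ^ δ)) p.1 p.2 y}.ncard : ℕ) : ℝ)
      ≤ ((∑ p ∈ A, {y : ℕ | M < y ∧ y ≤ M + Y ∧
        Solvable K (Real.exp ((Y : ℝ) ^ δ)) p.1 p.2 y}.ncard : ℕ) : ℝ) := by
        exact_mod_cast (Set.ncard_le_ncard hsub hfinU).trans hunion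
    _ = ∑ p ∈ A, (({y : ℕ | M < y ∧ y ≤ M + Y ∧
        Solvable K (Real.exp ((Y : ℝ) ^ δ)) p.1 p.2 y}.ncard : ℕ) : ℝ) := by push_cast; rfl
    _ ≤ ∑ _p ∈ A, (Y : ℝ) ^ (((n : ℝ) - 1) / (K : ℝ) + ε / 2) :=
        Finset.sum_le_sum fun p _ => hone p.1 p.2
    _ = A.card * (Y : ℝ) ^ (((n : ℝ) - 1) / (K : ℝ) + ε / 2) := by
        rw [Finset.sum_const, nsmul_eq_mul]
    _ ≤ (Y : ℝ) ^ (1 - ((n : ℝ) - 1) / (K : ℝ) - ε) *
        (Y : ℝ) ^ (((n : ℝ) - 1) / (K : ℝ) + ε / 2) := by gcongr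
    _ = (Y : ℝ) ^ (1 - ε / 2) := by
        rw [← Real.rpow_add hY0]
        congr 1
        ring

end Pool.Agent.Results.MP_a95293_nt.SharpThreshold
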