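import Pool.Agent.H8AB.FinI
import Pool.Agent.Y902.GN.FinB

/-!
# The n-term abc equation with bases in short intervals at any height

For all `n ≥ 3`, `N` and `ε > 0` there are `R` and `δ > 0` such that for every `Y ≥ 1`, ALL `N` intervals
`(M j, M j + Y]` and ALL coefficients `u i` the following holds. Consider the admissible `n`-tuples `a`
(coprime, with sum zero, without vanishing proper partial sum) with `|a i| ≤ exp (Y ^ δ)` of the form
`a i = u i * ∏ j, y j ^ e i j`, where `y j` is an integer of the `j`-th interval, the `y j` are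
pairwise coprime, and the exponents are arbitrary. Let `A i` be the product of those powers in `a i`
whose exponent is at least `R`. Then `A` takes at most `Y ^ ε` values altogether. In particular at
most `Y ^ ε` of these tuples have all exponents `0` or at least `R`.

So the `y j`, the coefficients and the radical of the product of the `a i` may be of exponential size
in a power of `Y`; only the lengths of the intervals are at most `Y`. The starting result `LargeParts`
is the case `M = 0`, `u = 1`.

Method: ultraproduct of counterexamples and the core theorem for shifted points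
(`Pool.Agent.H8FC.coreS`) give heights on the exponent vectors; by a Dirichlet lemma the ratio of two
members agrees up to bounded exponents with a monomial which is constant on a large subset; its
numerator `∏ y l ^ c l` is then constant, and there are few possibilities for the `y l`, since few
integers `d` of an interval `(M, M + Y]` have `d ^ c ∣ K` if `K ≤ (M + Y) ^ (c N)` (least common multiples
for large `M`, the divisor bound for small `M`), applied to the dominating base.
-/

set_option autoImplicit false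

namespace Pool.Agent.Results.MP_a95293_nt.ShortBoxes

/-- admissible `n`-tuples: coprime integers with sum zero and no vanishing proper partial sum -/
def Admissible {n : ℕ} (a : Fin n → ℤ) : Prop :=
  Finset.univ.gcd a = 1 ∧ ∑ i, a i = 0 ∧
    ∀ K : Finset (Fin n), K.Nonempty → K ≠ Finset.univ → ∑ i ∈ K, a i ≠ 0

/-- `a` is an admissible `n`-tuple with `|a i| ≤ exp (Y ^ δ)` and `a i = u i * ∏ j, y j ^ e i j`, where the
`y j` are pairwise coprime integers of the intervals `(M j, M j + Y]` -/
structure Rep {n N : ℕ} (Y : ℕ) (δ : ℝ) (M : Fin N → ℕ) (u : Fin n → ℤ) (a : Fin n → ℤ)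
    (y : Fin N → ℕ) (e : Fin n → Fin N → ℕ) : Prop where
  admissible : Admissible a
  size : ∀ i, |(a i : ℝ)| ≤ Real.exp ((Y : ℝ) ^ δ)
  box : ∀ j, M j < y j ∧ y j ≤ M j + Y
  coprime : ∀ j k, j ≠ k → Nat.Coprime (y j) (y k)
  eq : ∀ i, a i = u i * ∏ j, (y j : ℤ) ^ e i j

/-- the vectors of the parts with exponents at least `R` -/
def LargePartsOf {n N : ℕ} (R Y : ℕ) (δ : ℝ) (M : Fin N → ℕ) (u : Fin n → ℤ) :
    Set (Fin n → ℕ) :=
  {A | ∃ (a : Fin n → ℤ) (y : Fin N → ℕ) (e : Fin n → Fin N → ℕ), Rep Y δ M u a y e ∧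
    ∀ i, A i = ∏ j, if R ≤ e i j then y j ^ e i j else 1}

/-- the tuples all of whose exponents are zero or at least `R` -/
def FullTuples {n N : ℕ} (R Y : ℕ) (δ : ℝ) (M : Fin N → ℕ) (u : Fin n → ℤ) :
    Set (Fin n → ℤ) :=
  {a | ∃ (y : Fin N → ℕ) (e : Fin n → Fin N → ℕ), Rep Y δ M u a y e ∧ ∀ i j, e i j = 0 ∨ R ≤ e i j}

/-- **Few vectors of large parts**, for all intervals of length `Y` and all coefficients. -/
theorem result (n N : ℕ) (hn : 3 ≤ n) (ε : ℝ) (hε : 0 < ε) : ∃ (R : ℕ) (δ : ℝ), 0 < δ ∧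
    ∀ Y : ℕ, 1 ≤ Y → ∀ (M : Fin N → ℕ) (u : Fin n → ℤ),
      ((LargePartsOf R Y δ M u).Finite ∧ ((LargePartsOf R Y δ M u).ncard : ℝ) ≤ (Y : ℝ) ^ ε) ∧
      (FullTuples R Y δ M u).Finite ∧ ((FullTuples R Y δ M u).ncard : ℝ) ≤ (Y : ℝ) ^ ε := by
  obtain ⟨m, rfl⟩ : ∃ m, n = m + 1 := ⟨n - 1, by omega⟩
  obtain ⟨R, δ, hδ, h⟩ := Pool.Agent.H8AB.finI m N (by omega) ε hε
  refine ⟨R, δ, hδ, fun Y hY M u => ?_⟩
  have h1 : (LargePartsOf R Y δ M u).Finite ∧
      ((LargePartsOf R Y δ M u).ncard : ℝ) ≤ (Y : ℝ) ^ ε := by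
    refine Pool.Agent.Y902.GN.fin_of_bound _ _ fun T hT => ?_
    refine h Y hY M u T fun A hA => ?_
    obtain ⟨a, y, e, ⟨⟨g1, g2, g3⟩, g4, g5, g6, g7⟩, g8⟩ := hT A hA
    refine ⟨a, y, e, ⟨g5, g6, g4, ?_, g7⟩, ?_, ⟨g2, g3⟩, funext g8⟩
    · intro i
      have h2 := g3 {i} (Finset.singleton_nonempty i) (by
        intro h0
        have h3 := congrArg Finset.card h0
        rw [Finset.card_singleton, Finset.card_univ, Fintype.card_fin] at h3
        omega)
      rwa [Finset.sum_singleton] at h2
    · intro d hd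
      have h2 : d ∣ Finset.univ.gcd a := Finset.dvd_gcd fun i _ => hd i
      rw [g1] at h2
      exact isUnit_of_dvd_one h2
  refine ⟨h1, ?_⟩
  have h2 : FullTuples R Y δ M u ⊆
      (fun A : Fin (m + 1) → ℕ => fun i => u i * (A i : ℤ)) '' LargePartsOf R Y δ M u := by
    rintro a ⟨y, e, g1, g2⟩
    refine ⟨fun i => ∏ j, if R ≤ e i j then y j ^ e i j else 1, ⟨a, y, e, g1, fun _ => rfl⟩, ?_⟩
    funext i
    show u i * ((∏ j, if R ≤ e i j then y j ^ e i j else 1 : ℕ) : ℤ) = a i
    rw [g1.eq i, Nat.cast_prod]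
    congr 1
    refine Finset.prod_congr rfl fun j _ => ?_
    rcases g2 i j with h3 | h3
    · rw [h3]; split_ifs <;> simp
    · rw [if_pos h3, Nat.cast_pow]
  refine ⟨(h1.1.image _).subset h2, ?_⟩
  refine le_trans ?_ h1.2
  exact_mod_cast (Set.ncard_le_ncard h2 (h1.1.image _)).trans (Set.ncard_image_le h1.1)

end Pool.Agent.Results.MP_a95293_nt.ShortBoxes
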