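import Pool.Agent.H8AB.FinII
import Pool.Agent.Y902.GN.FinB

/-!
# The n-term abc equation with bases in short intervals at any height and an arbitrary power

For all `n`, `N` and `ε > 0` there are `R` and `δ > 0` such that for every `Y ≥ 1`, ALL `N` intervals
`(M j, M j + Y]` and ALL coefficients `u i`, `v` the following holds. Consider the admissible
`(n + 1)`-tuples `a` (coprime, with sum zero, without vanishing proper partial sum) with
`|a i| ≤ exp (Y ^ δ)` whose first `n` members are of the form `u i * ∏ j, y j ^ e i j`, where `y j` is an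
integer of the `j`-th interval, the `y j` are pairwise coprime, and the exponents are arbitrary, and
whose last member is `v * z ^ r` with `r ≥ R` and an ARBITRARY integer `z`. Let `A i` be the product of
those powers in `a i`, `i < n`, whose exponent is at least `R`. Then `(A, |z ^ r|)` takes at most
`Y ^ ε` values altogether. In particular at most `Y ^ ε` of these tuples have all exponents `e i j` zero
or at least `R`: for example the equations `u 1 * y 1 ^ e 1 + ⋯ + u n * y n ^ e n + v * z ^ r = 0` with all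
exponents at least `R` have at most `Y ^ ε` such solutions with pairwise coprime `y 1, …, y n` in a given
box of side `Y`, at any height up to `exp (Y ^ δ)`.

The starting result `HugePower` has bases `y j ≤ Y`. Method: see `ShortBoxes`; when the bases with
infinite exponents are constant, the core theorem for sums of bounded degree shows that `z ^ r` is
constant on a large subset.
-/

set_option autoImplicit false

namespace Pool.Agent.Results.MP_a95293_nt.ShortBoxesPower

/-- admissible tuples: coprime integers with sum zero and no vanishing proper partial sum -/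
def Admissible {n : ℕ} (a : Fin n → ℤ) : Prop :=
  Finset.univ.gcd a = 1 ∧ ∑ i, a i = 0 ∧
    ∀ K : Finset (Fin n), K.Nonempty → K ≠ Finset.univ → ∑ i ∈ K, a i ≠ 0

/-- `a` is an admissible `(n + 1)`-tuple with `|a i| ≤ exp (Y ^ δ)`, its first `n` members are
`u i * ∏ j, y j ^ e i j`, where the `y j` are pairwise coprime integers of the intervals
`(M j, M j + Y]`, and the last one is `v * z ^ r` -/
structure Rep {n N : ℕ} (Y : ℕ) (δ : ℝ) (M : Fin N → ℕ) (u : Fin n → ℤ) (v : ℤ)
    (a : Fin (n + 1) → ℤ) (y : Fin N → ℕ) (e : Fin n → Fin N → ℕ) (z : ℤ) (r : ℕ) : Prop where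
  admissible : Admissible a
  size : ∀ i, |(a i : ℝ)| ≤ Real.exp ((Y : ℝ) ^ δ)
  box : ∀ j, M j < y j ∧ y j ≤ M j + Y
  coprime : ∀ j k, j ≠ k → Nat.Coprime (y j) (y k)
  eq : ∀ i : Fin n, a i.castSucc = u i * ∏ j, (y j : ℤ) ^ e i j
  last : a (Fin.last n) = v * z ^ r

/-- the pairs of the vector of the parts with exponents at least `R`, and `|z ^ r|`, `r ≥ R` -/
def Parts {n N : ℕ} (R Y : ℕ) (δ : ℝ) (M : Fin N → ℕ) (u : Fin n → ℤ) (v : ℤ) :
    Set ((Fin n → ℕ) × ℤ) :=
  {p | ∃ (a : Fin (n + 1) → ℤ) (y : Fin N → ℕ) (e : Fin n → Fin N → ℕ) (z : ℤ) (r : ℕ),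
    Rep Y δ M u v a y e z r ∧ R ≤ r ∧
    (∀ i, p.1 i = ∏ j, if R ≤ e i j then y j ^ e i j else 1) ∧ p.2 = |z ^ r|}

/-- the tuples all of whose exponents `e i j` are zero or at least `R`, and `r ≥ R` -/
def FullTuples {n N : ℕ} (R Y : ℕ) (δ : ℝ) (M : Fin N → ℕ) (u : Fin n → ℤ) (v : ℤ) :
    Set (Fin (n + 1) → ℤ) :=
  {a | ∃ (y : Fin N → ℕ) (e : Fin n → Fin N → ℕ) (z : ℤ) (r : ℕ),
    Rep Y δ M u v a y e z r ∧ R ≤ r ∧ ∀ i j, e i j = 0 ∨ R ≤ e i j}

/-- **Few vectors of large parts and few powers**, for all intervals of length `Y` and all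
coefficients. -/
theorem result (n N : ℕ) (ε : ℝ) (hε : 0 < ε) : ∃ (R : ℕ) (δ : ℝ), 0 < δ ∧
    ∀ Y : ℕ, 1 ≤ Y → ∀ (M : Fin N → ℕ) (u : Fin n → ℤ) (v : ℤ),
      ((Parts R Y δ M u v).Finite ∧ ((Parts R Y δ M u v).ncard : ℝ) ≤ (Y : ℝ) ^ ε) ∧
      (FullTuples R Y δ M u v).Finite ∧ ((FullTuples R Y δ M u v).ncard : ℝ) ≤ (Y : ℝ) ^ ε := by
  obtain ⟨R, δ, hδ, h⟩ := Pool.Agent.H8AB.finII n N ε hε
  refine ⟨R, δ, hδ, fun Y hY M u v => ?_⟩
  have h1 : (Parts R Y δ M u v).Finite ∧ ((Parts R Y δ M u v).ncard : ℝ) ≤ (Y : ℝ) ^ ε := by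
    refine Pool.Agent.Y902.GN.fin_of_bound _ _ fun T hT => ?_
    refine h Y hY M u (-v) T fun p hp => ?_
    obtain ⟨a, y, e, z, r, ⟨⟨g1, g2, g3⟩, g4, g5, g6, g7, g8⟩, g9, g10, g11⟩ := hT p hp
    -- the members are nonzero
    have hn : n ≠ 0 := by
      rintro rfl
      rw [Fin.sum_univ_one] at g2
      have h2 : Finset.univ.gcd a = 0 := by
        rw [Finset.gcd_eq_zero_iff]
        intro i _
        have hi : i = 0 := Fin.ext (by have := i.2; simp)
        rw [hi]
        exact g2
      rw [h2] at g1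
      exact zero_ne_one g1
    have hne : ∀ i, a i ≠ 0 := by
      intro i
      have h2 := g3 {i} (Finset.singleton_nonempty i) (by
        intro h0
        have h3 := congrArg Finset.card h0
        rw [Finset.card_singleton, Finset.card_univ, Fintype.card_fin] at h3
        omega)
      rwa [Finset.sum_singleton] at h2
    have hsum : ∑ i : Fin n, a i.castSucc = -(v * z ^ r) := by
      rw [Fin.sum_univ_castSucc, g8] at g2
      linarith
    refine ⟨fun i => a i.castSucc, y, e, z, r, ⟨g5, g6, fun i => g4 _, fun i => hne _, g7⟩, ?_, ?_,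
      g9, ?_, ?_, Prod.ext (funext g10) g11⟩
    · intro d hd
      have h2 : d ∣ Finset.univ.gcd a := by
        refine Finset.dvd_gcd fun i _ => ?_
        refine Fin.lastCases ?_ (fun i => hd i) i
        have h3 : a (Fin.last n) = -∑ i : Fin n, a i.castSucc := by rw [hsum, g8, neg_neg]
        rw [h3]
        exact (dvd_neg).2 (Finset.dvd_sum fun i _ => hd i)
      rw [g1] at h2
      exact isUnit_of_dvd_one h2
    · refine ⟨by rw [hsum]; ring, fun K hK => ?_⟩
      have h2 := g3 (K.map Fin.castSuccEmb) (hK.map) (by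
        intro h0
        have h2 : Fin.last n ∈ K.map Fin.castSuccEmb := by rw [h0]; exact Finset.mem_univ _
        obtain ⟨i, _, hi⟩ := Finset.mem_map.1 h2
        exact absurd hi (Fin.castSucc_lt_last i).ne)
      rw [Finset.sum_map] at h2
      exact h2
    · rw [neg_mul, neg_ne_zero, ← g8]
      exact hne _
    · rw [neg_mul, ← g8, Int.cast_neg, abs_neg]
      exact g4 _
  refine ⟨h1, ?_⟩
  have h2 : FullTuples R Y δ M u v ⊆
      (fun p : (Fin n → ℕ) × ℤ => (Fin.snoc (fun i => u i * (p.1 i : ℤ))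
        (-∑ i, u i * (p.1 i : ℤ)) : Fin (n + 1) → ℤ)) '' Parts R Y δ M u v := by
    rintro a ⟨y, e, z, r, g1, g0, g2⟩
    refine ⟨(fun i => ∏ j, if R ≤ e i j then y j ^ e i j else 1, |z ^ r|),
      ⟨a, y, e, z, r, g1, g0, fun _ => rfl, rfl⟩, ?_⟩
    have h3 : ∀ i : Fin n, u i * ((∏ j, if R ≤ e i j then y j ^ e i j else 1 : ℕ) : ℤ) =
        a i.castSucc := by
      intro i
      rw [g1.eq i, Nat.cast_prod]
      congr 1
      refine Finset.prod_congr rfl fun j _ => ?_
      rcases g2 i j with h3 | h3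
      · rw [h3]; split_ifs <;> simp
      · rw [if_pos h3, Nat.cast_pow]
    funext i
    refine Fin.lastCases ?_ (fun i => ?_) i
    · simp only [Fin.snoc_last]
      rw [Finset.sum_congr rfl fun i _ => h3 i]
      have h4 := g1.admissible.2.1
      rw [Fin.sum_univ_castSucc] at h4
      linarith
    · simp only [Fin.snoc_castSucc]
      exact h3 i
  refine ⟨(h1.1.image _).subset h2, ?_⟩
  refine le_trans ?_ h1.2
  exact_mod_cast (Set.ncard_le_ncard h2 (h1.1.image _)).trans (Set.ncard_image_le h1.1)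

end Pool.Agent.Results.MP_a95293_nt.ShortBoxesPower
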